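import Mathlib

set_option autoImplicit false

namespace Pool.Agent.H.MP_42bdc2_co

open Finset Classical

abbrev Ed := ℕ × ℕ

def cross (e f : Ed) : Prop := e.1 < f.1 ∧ f.1 < e.2 ∧ e.2 < f.2
def nest (e f : Ed) : Prop := e.1 < f.1 ∧ f.2 < e.2

def Tw (T : Finset Ed) : Prop := ∀ e ∈ T, ∀ f ∈ T, e ≠ f → cross e f ∨ cross f e
def Rb (T : Finset Ed) : Prop := ∀ e ∈ T, ∀ f ∈ T, e ≠ f → nest e f ∨ nest f e

def Ok (E : Finset Ed) : Prop := ∀ e ∈ E, e.1 < e.2

def TwB (E : Finset Ed) (K : ℕ) : Prop := ∀ T ⊆ E, Tw T → T.card ≤ K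
def RbB (E : Finset Ed) (K : ℕ) : Prop := ∀ T ⊆ E, Rb T → T.card ≤ K

lemma Tw.mono {S T : Finset Ed} (h : Tw T) (hs : S ⊆ T) : Tw S :=
  fun e he f hf => h e (hs he) f (hs hf)
lemma Rb.mono {S T : Finset Ed} (h : Rb T) (hs : S ⊆ T) : Rb S :=
  fun e he f hf => h e (hs he) f (hs hf)
lemma Ok.mono {S T : Finset Ed} (h : Ok T) (hs : S ⊆ T) : Ok S := fun e he => h e (hs he)
lemma TwB.mono {S T : Finset Ed} {K : ℕ} (h : TwB T K) (hs : S ⊆ T) : TwB S K :=
  fun U hU => h U (hU.trans hs)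

/-- Mirsky -/
lemma mirsky {α : Type*} (E : Finset α) (R : α → α → Prop) (K : ℕ)
    (irr : ∀ e ∈ E, ¬ R e e)
    (tr : ∀ e ∈ E, ∀ f ∈ E, ∀ g ∈ E, R e f → R f g → R e g)
    (hK : ∀ T ⊆ E, (∀ e ∈ T, ∀ f ∈ T, e ≠ f → R e f ∨ R f e) → T.card ≤ K) :
    ∃ c : α → ℕ, (∀ e ∈ E, c e < K) ∧ ∀ e ∈ E, ∀ f ∈ E, R e f → c e ≠ c f := by
  let ch : α → Finset (Finset α) := fun f => E.powerset.filter fun T =>
    (∀ e ∈ T, ∀ g ∈ T, e ≠ g → R e g ∨ R g e) ∧ ∀ e ∈ T, R e f
  have ne : ∀ f, (ch f).Nonempty := fun f => ⟨∅, by simp [ch]⟩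
  have key : ∀ f ∈ E, ∃ T ⊆ E, (∀ e ∈ T, ∀ g ∈ T, e ≠ g → R e g ∨ R g e) ∧ (∀ e ∈ T, e = f ∨ R e f) ∧
      T.card = (ch f).sup card + 1 := by
    intro f hf
    obtain ⟨T, hT, e⟩ := exists_mem_eq_sup (ch f) (ne f) card
    obtain ⟨h1, h2, h3⟩ := mem_filter.1 hT
    have hn : f ∉ T := fun h => irr f hf (h3 f h)
    refine ⟨insert f T, insert_subset hf (mem_powerset.1 h1), ?_, ?_, by rw [card_insert_of_notMem hn, e]⟩
    · intro a ha b hb hab
      rcases mem_insert.1 ha with rfl | ha'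
      · rcases mem_insert.1 hb with rfl | hb'
        · exact (hab rfl).elim
        · exact Or.inr (h3 b hb')
      · rcases mem_insert.1 hb with rfl | hb'
        · exact Or.inl (h3 a ha')
        · exact h2 a ha' b hb' hab
    · intro a ha
      rcases mem_insert.1 ha with rfl | ha
      · exact Or.inl rfl
      · exact Or.inr (h3 a ha)
  refine ⟨fun f => (ch f).sup card, fun f hf => ?_, fun e he f hf hR => ?_⟩
  · obtain ⟨T, h1, h2, -, h4⟩ := key f hf
    have := hK T h1 h2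
    show (ch f).sup card < K
    omega
  · obtain ⟨T, h1, h2, h3, h4⟩ := key e he
    have : T ∈ ch f := mem_filter.2 ⟨mem_powerset.2 h1, h2, fun a ha => by
      rcases h3 a ha with rfl | h
      · exact hR
      · exact tr a (h1 ha) e he f hf h hR⟩
    have := le_sup (f := card) this
    show (ch e).sup card ≠ (ch f).sup card
    omega

/-- the index function -/
lemma index (D : Finset Ed) (hD : Ok D) : ∃ ι : ℕ → ℕ, Monotone ι ∧
    (∀ x y, ι x + 2 ≤ ι y → ∃ m ∈ D, x < m.1 ∧ m.2 < y) ∧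
    (∀ e ∈ D, ∀ y, e.2 < y → ι e.1 + 1 ≤ ι y) := by
  let ch : ℕ → Finset (Finset Ed) := fun x => D.powerset.filter fun T =>
    (∀ e ∈ T, ∀ g ∈ T, e ≠ g → e.2 < g.1 ∨ g.2 < e.1) ∧ ∀ e ∈ T, e.2 < x
  have ne : ∀ x, (ch x).Nonempty := fun f => ⟨∅, by simp [ch]⟩
  refine ⟨fun x => (ch x).sup card, fun x y hxy => sup_mono fun T hT => ?_, fun x y h => ?_,
    fun e he y hy => ?_⟩
  · obtain ⟨h1, h2, h3⟩ := mem_filter.1 hT
    exact mem_filter.2 ⟨h1, h2, fun e he => (h3 e he).trans_le hxy⟩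
  · obtain ⟨T, hT, e⟩ := exists_mem_eq_sup (ch y) (ne y) card
    obtain ⟨h1, h2, h3⟩ := mem_filter.1 hT
    have h1 := mem_powerset.1 h1
    have a : (T.filter fun e => e.2 < x).card ≤ (ch x).sup card :=
      le_sup (f := card) (mem_filter.2 ⟨mem_powerset.2 ((filter_subset _ _).trans h1),
        fun a ha b hb => h2 a (mem_filter.1 ha).1 b (mem_filter.1 hb).1, fun a ha => (mem_filter.1 ha).2⟩)
    have b := card_filter_add_card_filter_not (s := T) fun e => e.2 < x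
    have c : 1 < (T.filter fun e => ¬ e.2 < x).card := by
      have : (ch x).sup card + 2 ≤ (ch y).sup card := h
      omega
    obtain ⟨p, hp, q, hq, hpq⟩ := one_lt_card.1 c
    obtain ⟨p1, p2⟩ := mem_filter.1 hp
    obtain ⟨q1, q2⟩ := mem_filter.1 hq
    rcases h2 p p1 q q1 hpq with h | h
    · exact ⟨q, h1 q1, by omega, h3 q q1⟩
    · exact ⟨p, h1 p1, by omega, h3 p p1⟩
  · obtain ⟨T, hT, e'⟩ := exists_mem_eq_sup (ch e.1) (ne e.1) card
    obtain ⟨h1, h2, h3⟩ := mem_filter.1 hT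
    have l := hD e he
    have hn : e ∉ T := fun h => by have := h3 e h; omega
    have : insert e T ∈ ch y := by
      refine mem_filter.2 ⟨mem_powerset.2 (insert_subset he (mem_powerset.1 h1)), ?_, ?_⟩
      · intro a ha b hb hab
        rcases mem_insert.1 ha with rfl | ha'
        · rcases mem_insert.1 hb with rfl | hb'
          · exact (hab rfl).elim
          · exact Or.inr (h3 b hb')
        · rcases mem_insert.1 hb with rfl | hb'
          · exact Or.inl (h3 a ha')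
          · exact h2 a ha' b hb' hab
      · intro a ha
        rcases mem_insert.1 ha with rfl | ha
        · exact hy
        · have := h3 a ha; omega
    have := le_sup (f := card) this
    rw [card_insert_of_notMem hn] at this
    show (ch e.1).sup card + 1 ≤ (ch y).sup card
    omega

/-- twists covering an edge are small -/
def CovB (D : Finset Ed) (K : ℕ) : Prop := ∀ T ⊆ D, Tw T → ∀ m ∈ D, (∀ t ∈ T, nest t m) → T.card ≤ K

lemma cov_bound {D : Finset Ed} {K : ℕ} (hc : CovB D K) {ι : ℕ → ℕ}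
    (h2 : ∀ x y, ι x + 2 ≤ ι y → ∃ m ∈ D, x < m.1 ∧ m.2 < y) {T : Finset Ed} (hT : T ⊆ D) (tw : Tw T)
    (h : ∀ e ∈ T, ∀ f ∈ T, ι e.1 + 2 ≤ ι f.2) : T.card ≤ K := by
  rcases T.eq_empty_or_nonempty with rfl | hne
  · simp
  obtain ⟨e, he, e1⟩ := exists_max_image T Prod.fst hne
  obtain ⟨f, hf, f1⟩ := exists_min_image T Prod.snd hne
  obtain ⟨m, hm, a, b⟩ := h2 _ _ (h e he f hf)
  exact hc T hT tw m hm fun t ht => ⟨(e1 t ht).trans_lt a, b.trans_le (f1 t ht)⟩

lemma Tw.lt {T : Finset Ed} (tw : Tw T) (ok : Ok T) {e f : Ed} (he : e ∈ T) (hf : f ∈ T) : e.1 < f.2 := by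
  by_cases h : e = f
  · subst h; exact ok e he
  · have := ok e he
    have := ok f hf
    rcases tw e he f hf h with h | h <;> unfold cross at h <;> omega

lemma Rb.lt {T : Finset Ed} (tw : Rb T) (ok : Ok T) {e f : Ed} (he : e ∈ T) (hf : f ∈ T) : e.1 < f.2 := by
  by_cases h : e = f
  · subst h; exact ok e he
  · have := ok e he
    have := ok f hf
    rcases tw e he f hf h with h | h <;> unfold nest at h <;> omega

/-- noncrossing graphs are 3-colourable -/
lemma three_col (V : Finset ℕ) : ∀ G : Finset Ed, Ok G → (∀ e ∈ G, e.1 ∈ V ∧ e.2 ∈ V) →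
    (∀ e ∈ G, ∀ f ∈ G, ¬ cross e f) → ∃ φ : ℕ → Fin 3, ∀ e ∈ G, φ e.1 ≠ φ e.2 := by
  induction V using Finset.strongInduction with
  | H V ih =>
  intro G ok hV nc
  rcases G.eq_empty_or_nonempty with rfl | ⟨e0, he0⟩
  · exact ⟨fun _ => 0, by simp⟩
  have : ∃ w ∈ V, ∀ e ∈ G, (e.1 = w ∨ e.2 = w) → ∀ z ∈ V, ¬ (e.1 < z ∧ z < e.2) := by
    by_cases h : (G.filter fun e => ∃ z ∈ V, e.1 < z ∧ z < e.2).Nonempty
    · obtain ⟨u, hu, hmin⟩ := exists_min_image _ (fun e : Ed => e.2 - e.1) h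
      obtain ⟨hu, w, hw, w1, w2⟩ := mem_filter.1 hu
      refine ⟨w, hw, fun e he hew z hz hh => ?_⟩
      have a := hmin e (mem_filter.2 ⟨he, z, hz, hh⟩)
      have b := nc u hu e he
      have c := nc e he u hu
      have d := ok e he
      unfold cross at b c
      omega
    · refine ⟨e0.1, (hV e0 he0).1, fun e he _ z hz hh => h ⟨e, mem_filter.2 ⟨he, z, hz, hh⟩⟩⟩
  obtain ⟨w, hw, H⟩ := this
  obtain ⟨φ, hφ⟩ := ih (V.erase w) (erase_ssubset hw) (G.filter fun e => e.1 ≠ w ∧ e.2 ≠ w)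
    (ok.mono (filter_subset _ _))
    (fun e he => by
      obtain ⟨a, b, c⟩ := mem_filter.1 he
      exact ⟨mem_erase.2 ⟨b, (hV e a).1⟩, mem_erase.2 ⟨c, (hV e a).2⟩⟩)
    (fun e he f hf => nc e (mem_filter.1 he).1 f (mem_filter.1 hf).1)
  have u1 : ∃ p, ∀ e ∈ G, e.1 = w → e.2 = p := by
    by_cases h : ∃ e ∈ G, e.1 = w
    · obtain ⟨e, he, h⟩ := h
      refine ⟨e.2, fun f hf h' => ?_⟩
      have a := H e he (Or.inl h) f.2 (hV f hf).2
      have b := H f hf (Or.inl h') e.2 (hV e he).2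
      have := ok e he
      have := ok f hf
      omega
    · exact ⟨0, fun e he h' => (h ⟨e, he, h'⟩).elim⟩
  have u2 : ∃ p, ∀ e ∈ G, e.2 = w → e.1 = p := by
    by_cases h : ∃ e ∈ G, e.2 = w
    · obtain ⟨e, he, h⟩ := h
      refine ⟨e.1, fun f hf h' => ?_⟩
      have a := H e he (Or.inr h) f.1 (hV f hf).1
      have b := H f hf (Or.inr h') e.1 (hV e he).1
      have := ok e he
      have := ok f hf
      omega
    · exact ⟨0, fun e he h' => (h ⟨e, he, h'⟩).elim⟩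
  obtain ⟨p, hp⟩ := u1
  obtain ⟨q, hq⟩ := u2
  have : ∀ a b : Fin 3, ∃ c, c ≠ a ∧ c ≠ b := by decide
  obtain ⟨c, c1, c2⟩ := this (φ p) (φ q)
  refine ⟨Function.update φ w c, fun e he => ?_⟩
  have l := ok e he
  by_cases a : e.1 = w
  · have b : e.2 ≠ w := by omega
    rw [a, Function.update_self, Function.update_of_ne b, hp e he a]
    exact c1
  · by_cases b : e.2 = w
    · rw [b, Function.update_self, Function.update_of_ne a, hq e he b]
      exact c2.symm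
    · rw [Function.update_of_ne a, Function.update_of_ne b]
      exact hφ e (mem_filter.2 ⟨he, a, b⟩)

end Pool.Agent.H.MP_42bdc2_co
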