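import Pool.Agent.H.MP_42bdc2_co.A

set_option autoImplicit false

namespace Pool.Agent.H.MP_42bdc2_co

open Finset Classical

def SC (E : Finset Ed) (C : Type) : Prop := ∃ c : Ed → C, ∀ e ∈ E, ∀ f ∈ E, cross e f → c e ≠ c f

lemma SC.union {E E1 E2 : Finset Ed} {C1 C2 : Type} (h1 : SC E1 C1) (h2 : SC E2 C2)
    (h : ∀ e ∈ E, e ∈ E1 ∨ e ∈ E2) : SC E (C1 ⊕ C2) := by
  obtain ⟨c1, h1⟩ := h1
  obtain ⟨c2, h2⟩ := h2
  refine ⟨fun e => if e ∈ E1 then Sum.inl (c1 e) else Sum.inr (c2 e), fun e he f hf hc => ?_⟩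
  by_cases a : e ∈ E1 <;> by_cases b : f ∈ E1 <;> simp only [a, b, if_true, if_false]
  · exact fun h => h1 e a f b hc (Sum.inl_injective h)
  · exact Sum.inl_ne_inr
  · exact Sum.inr_ne_inl
  · exact fun h' => h2 e ((h e he).resolve_left a) f ((h f hf).resolve_left b) hc (Sum.inr_injective h')

lemma SC.fibre {E : Finset Ed} {L P C : Type} (lab : Ed → L) (par : Ed → P)
    (h : ∀ e ∈ E, ∀ f ∈ E, cross e f → par e = par f → lab e = lab f)
    (H : ∀ x, ∀ F ⊆ E, (∀ e ∈ F, lab e = x) → SC F C) : SC E (P × C) := by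
  have H' : ∀ x, SC (E.filter fun e => lab e = x) C := fun x =>
    H x _ (filter_subset _ _) fun e he => (mem_filter.1 he).2
  choose c hc using H'
  refine ⟨fun e => (par e, c (lab e) e), fun e he f hf hx heq => ?_⟩
  obtain ⟨a, b⟩ := Prod.mk.inj heq
  have l := h e he f hf hx a
  exact hc (lab e) e (mem_filter.2 ⟨he, rfl⟩) f (mem_filter.2 ⟨hf, l.symm⟩) hx (by rw [b, l])

lemma vcol {G : Finset Ed} {C : Type} (ok : Ok G) (h : SC G C) :
    ∃ φ : ℕ → C → Fin 3, ∀ e ∈ G, φ e.1 ≠ φ e.2 := by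
  obtain ⟨c, hc⟩ := h
  have : ∀ x : C, ∃ φ : ℕ → Fin 3, ∀ e ∈ G.filter (fun e => c e = x), φ e.1 ≠ φ e.2 := fun x =>
    three_col (G.image Prod.fst ∪ G.image Prod.snd) _ (ok.mono (filter_subset _ _))
      (fun e he => ⟨mem_union_left _ (mem_image_of_mem _ (mem_filter.1 he).1),
        mem_union_right _ (mem_image_of_mem _ (mem_filter.1 he).1)⟩)
      (fun e he f hf hx => hc e (mem_filter.1 he).1 f (mem_filter.1 hf).1 hx
        ((mem_filter.1 he).2.trans (mem_filter.1 hf).2.symm))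
  choose φ hφ using this
  exact ⟨fun v x => φ x v, fun e he h => hφ (c e) e (mem_filter.2 ⟨he, rfl⟩) (congrFun h (c e))⟩

lemma adj_col {D : Finset Ed} {K : ℕ} (tb : TwB D (K + 1)) {ι : ℕ → ℕ} (hm : Monotone ι) :
    SC (D.filter fun e => ι e.2 = ι e.1 + 1) (Fin 2 × Fin (K + 1)) := by
  obtain ⟨c, c1, c2⟩ := mirsky (D.filter fun e => ι e.2 = ι e.1 + 1)
    (fun e f => cross e f ∧ ι e.1 = ι f.1) (K + 1)
    (fun e _ h => lt_irrefl _ h.1.1)
    (fun e he f _ g _ h1 h2 => by
      have a := (mem_filter.1 he).2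
      refine ⟨⟨h1.1.1.trans h2.1.1, ?_, h1.1.2.2.trans h2.1.2.2⟩, h1.2.trans h2.2⟩
      by_contra hh
      have := hm (not_lt.1 hh)
      have := h1.2
      have := h2.2
      omega)
    (fun T hT h => tb T (hT.trans (filter_subset _ _)) fun e he f hf hne =>
      (h e he f hf hne).imp And.left And.left)
  refine ⟨fun e => (⟨ι e.1 % 2, Nat.mod_lt _ (by omega)⟩, ⟨c e % (K + 1), Nat.mod_lt _ (by omega)⟩),
    fun e he f hf hx heq => ?_⟩
  simp only [Prod.mk.injEq, Fin.mk.injEq] at heq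
  rw [Nat.mod_eq_of_lt (c1 e he), Nat.mod_eq_of_lt (c1 f hf)] at heq
  refine c2 e he f hf ⟨hx, ?_⟩ heq.2
  have a := (mem_filter.1 he).2
  have b := hm hx.1.le
  have d := hm hx.2.1.le
  omega

lemma short_no {D : Finset Ed} {ι : ℕ → ℕ} (hm : Monotone ι)
    (h3 : ∀ e ∈ D, ∀ y, e.2 < y → ι e.1 + 1 ≤ ι y) {e f : Ed} (he : e ∈ D) (a : ι e.2 = ι e.1)
    (b : ι f.2 = ι f.1) (h1 : f.1 < e.2) (h2 : e.2 < f.2) : False := by
  have := h3 e he f.2 h2
  have := hm h1.le
  omega

lemma level_col {K : ℕ} {C : Type} (IH : ∀ E, Ok E → TwB E K → SC E C) {D : Finset Ed} (ok : Ok D)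
    (tb : TwB D (K + 1)) (cb : CovB D K) :
    SC D ((Unit ⊕ (Fin 2 × Fin (K + 1))) ⊕ ((Fin 3 × (C → Fin 3) × (C → Fin 3)) × C)) := by
  obtain ⟨ι, hm, h2, h3⟩ := index D ok
  have s1 : SC (D.filter fun e => ι e.2 = ι e.1) Unit :=
    ⟨fun _ => (), fun e he f hf hx _ => short_no hm h3 (mem_filter.1 he).1 (mem_filter.1 he).2
      (mem_filter.1 hf).2 hx.2.1 hx.2.2⟩
  have s2 := adj_col tb hm
  set Lg := D.filter fun e => ι e.1 + 2 ≤ ι e.2 with hLg
  have g : ∀ δ ≤ 1, ∀ ρ : ℕ, ∃ φ : ℕ → C → Fin 3, ∀ e ∈ Lg, (ι e.1 + δ) % 3 = ρ → ι e.2 % 3 = ρ →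
      φ (ι e.1 + δ) ≠ φ (ι e.2) := by
    intro δ hδ ρ
    let F := Lg.filter fun e => (ι e.1 + δ) % 3 = ρ ∧ ι e.2 % 3 = ρ
    let q : Ed → Ed := fun e => (ι e.1 + δ, ι e.2)
    have okG : Ok (F.image q) := by
      intro u hu
      obtain ⟨e, he, rfl⟩ := mem_image.1 hu
      have := (mem_filter.1 (mem_filter.1 he).1).2
      show ι e.1 + δ < ι e.2
      omega
    have tG : TwB (F.image q) K := by
      intro T hT tw
      have ex : ∀ u : Ed, ∃ e, u ∈ T → e ∈ F ∧ q e = u := fun u => by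
        by_cases h : u ∈ T
        · obtain ⟨e, he, h'⟩ := mem_image.1 (hT h)
          exact ⟨e, fun _ => ⟨he, h'⟩⟩
        · exact ⟨u, fun h' => (h h').elim⟩
      choose σ hσ using ex
      have inj : Set.InjOn σ T := fun u hu v hv h => by rw [← (hσ u hu).2, h, (hσ v hv).2]
      rw [← card_image_of_injOn inj]
      have lt : ∀ x y, ι x < ι y → x < y := fun x y h => by
        by_contra hh
        have := hm (not_lt.1 hh)
        omega
      have cr : ∀ u ∈ T, ∀ v ∈ T, cross u v → cross (σ u) (σ v) := by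
        intro u hu v hv h
        rw [← (hσ u hu).2, ← (hσ v hv).2] at h
        obtain ⟨a, b, c⟩ := h
        simp only [q] at a b c
        exact ⟨lt _ _ (by omega), lt _ _ (by omega), lt _ _ c⟩
      refine cov_bound cb h2 (fun e he => ?_) (fun e he f hf hne => ?_) fun e he f hf => ?_
      · obtain ⟨u, hu, rfl⟩ := mem_image.1 he
        exact (mem_filter.1 (mem_filter.1 (hσ u hu).1).1).1
      · obtain ⟨u, hu, rfl⟩ := mem_image.1 he
        obtain ⟨v, hv, rfl⟩ := mem_image.1 hf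
        exact (tw u hu v hv fun h => hne (by rw [h])).imp (cr u hu v hv) (cr v hv u hu)
      · obtain ⟨u, hu, rfl⟩ := mem_image.1 he
        obtain ⟨v, hv, rfl⟩ := mem_image.1 hf
        have a := tw.lt (okG.mono hT) hu hv
        rw [← (hσ u hu).2, ← (hσ v hv).2] at a
        have b := (mem_filter.1 (hσ u hu).1).2.1
        have c := (mem_filter.1 (hσ v hv).1).2.2
        simp only [q] at a
        omega
    obtain ⟨φ, hφ⟩ := vcol okG (IH _ okG tG)
    exact ⟨φ, fun e he a b => hφ (q e) (mem_image_of_mem _ (mem_filter.2 ⟨he, a, b⟩))⟩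
  choose φ0 hφ0 using g 0 (by omega)
  choose φ1 hφ1 using g 1 (by omega)
  let lab : Ed → Fin 3 × (C → Fin 3) × (C → Fin 3) := fun e =>
    (⟨ι e.2 % 3, Nat.mod_lt _ (by omega)⟩, φ0 (ι e.2 % 3) (ι e.2), φ1 (ι e.2 % 3) (ι e.2))
  have s3 : SC Lg ((Fin 3 × (C → Fin 3) × (C → Fin 3)) × C) := by
    refine SC.fibre lab lab (fun _ _ _ _ _ h => h) fun x F hF hx => IH _
      (ok.mono (hF.trans (filter_subset _ _))) fun T hT tw => ?_
    have hD : T ⊆ D := hT.trans (hF.trans (filter_subset _ _))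
    refine cov_bound cb h2 hD tw fun f hf e he => ?_
    have l := hm (tw.lt (ok.mono hD) hf he).le
    have f1 := hF (hT hf)
    have q := (hx f (hT hf)).trans (hx e (hT he)).symm
    simp only [lab, Prod.mk.injEq, Fin.mk.injEq] at q
    obtain ⟨q1, q2, q3⟩ := q
    by_contra hh
    by_cases h0 : ι e.2 = ι f.1 + 0
    · apply hφ0 (ι f.2 % 3) f f1 (by omega) rfl
      rw [q2, ← h0, q1]
    · have h1 : ι e.2 = ι f.1 + 1 := by omega
      apply hφ1 (ι f.2 % 3) f f1 (by omega) rfl
      rw [q3, ← h1, q1]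
  refine SC.union (SC.union s1 s2 (E := D.filter fun e => ι e.2 ≤ ι e.1 + 1) fun e he => ?_) s3 fun e he => ?_
  · obtain ⟨a, b⟩ := mem_filter.1 he
    have := hm (ok e a).le
    by_cases h : ι e.2 = ι e.1
    · exact Or.inl (mem_filter.2 ⟨a, h⟩)
    · exact Or.inr (mem_filter.2 ⟨a, by omega⟩)
  · by_cases h : ι e.2 ≤ ι e.1 + 1
    · exact Or.inl (mem_filter.2 ⟨he, h⟩)
    · exact Or.inr (mem_filter.2 ⟨he, by omega⟩)

lemma dist_step {V : Type*} {G : SimpleGraph V} {r g m : V} (h : G.Reachable r g) (a : G.Adj g m) :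
    G.dist r m ≤ G.dist r g + 1 := by
  obtain ⟨p, hp⟩ := h.exists_walk_length_eq_dist
  have := G.dist_le (p.concat a)
  rwa [SimpleGraph.Walk.length_concat, hp] at this

lemma dist_pred {V : Type*} {G : SimpleGraph V} {r m : V} {j : ℕ} (h : G.Reachable r m)
    (hd : G.dist r m = j + 1) : ∃ g, G.Adj g m ∧ G.Reachable r g ∧ G.dist r g = j := by
  obtain ⟨p, hp⟩ := h.symm.exists_walk_length_eq_dist
  rw [SimpleGraph.dist_comm, hd] at hp
  cases p with
  | nil => simp at hp
  | cons a q =>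
    rename_i g
    have h1 := G.dist_le q
    rw [SimpleGraph.dist_comm] at h1
    have h2 := dist_step q.reachable.symm a.symm
    rw [SimpleGraph.Walk.length_cons] at hp
    exact ⟨g, a.symm, q.reachable.symm, by omega⟩

lemma bfs {K : ℕ} {C : Type} (L : ∀ D, Ok D → TwB D (K + 1) → CovB D K → SC D C) {E : Finset Ed}
    (ok : Ok E) (tb : TwB E (K + 1)) : SC E (Fin 2 × C) := by
  let G : SimpleGraph Ed := SimpleGraph.fromRel fun e f => e ∈ E ∧ f ∈ E ∧ cross e f
  have adj : ∀ e f, G.Adj e f ↔ e ∈ E ∧ f ∈ E ∧ (cross e f ∨ cross f e) := by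
    intro e f
    simp only [G, SimpleGraph.fromRel_adj]
    constructor
    · rintro ⟨-, h | h⟩
      · exact ⟨h.1, h.2.1, Or.inl h.2.2⟩
      · exact ⟨h.2.1, h.1, Or.inr h.2.2⟩
    · rintro ⟨a, b, h⟩
      refine ⟨fun e => ?_, h.imp (fun h => ⟨a, b, h⟩) fun h => ⟨b, a, h⟩⟩
      subst e
      rcases h with h | h <;> exact lt_irrefl _ h.1
  have rt : ∀ κ : G.ConnectedComponent, ∃ r : Ed, ∀ e ∈ E, G.connectedComponentMk e = κ →
      G.Reachable r e ∧ (r.1 < e.1 ∨ (r.1 = e.1 ∧ e.2 ≤ r.2)) := by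
    intro κ
    by_cases h : (E.filter fun e => G.connectedComponentMk e = κ).Nonempty
    · obtain ⟨a, ha, hmin⟩ := exists_min_image _ Prod.fst h
      obtain ⟨r, hr, hmax⟩ := exists_max_image ((E.filter fun e => G.connectedComponentMk e = κ).filter
        fun e => e.1 = a.1) Prod.snd ⟨a, mem_filter.2 ⟨ha, rfl⟩⟩
      obtain ⟨r1, r2⟩ := mem_filter.1 hr
      refine ⟨r, fun e he hk => ⟨SimpleGraph.ConnectedComponent.exact
        ((mem_filter.1 r1).2.trans hk.symm), ?_⟩⟩
      have b := hmin e (mem_filter.2 ⟨he, hk⟩)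
      by_cases c : e.1 = a.1
      · exact Or.inr ⟨by omega, hmax e (mem_filter.2 ⟨mem_filter.2 ⟨he, hk⟩, c⟩)⟩
      · exact Or.inl (by omega)
    · exact ⟨(0, 0), fun e he hk => (h ⟨e, mem_filter.2 ⟨he, hk⟩⟩).elim⟩
  choose r hr using rt
  let lv : Ed → ℕ := fun e => G.dist (r (G.connectedComponentMk e)) e
  refine SC.fibre (fun e => (G.connectedComponentMk e, lv e))
    (fun e => (⟨lv e % 2, Nat.mod_lt _ (by omega)⟩ : Fin 2)) (fun e he f hf hx h => ?_)
    fun x F hF hx => L F (ok.mono hF) (tb.mono hF) fun T hT tw m hm hn => ?_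
  · have a : G.Adj e f := (adj e f).2 ⟨he, hf, Or.inl hx⟩
    have k : G.connectedComponentMk e = G.connectedComponentMk f :=
      SimpleGraph.ConnectedComponent.sound a.reachable
    have b := dist_step (hr _ e he rfl).1 a
    have c := dist_step (hr _ f hf rfl).1 a.symm
    simp only [Fin.mk.injEq, lv] at h
    simp only [Prod.mk.injEq, lv]
    rw [← k] at c h ⊢
    exact ⟨rfl, by omega⟩
  · obtain ⟨κ, i⟩ := x
    have hk : ∀ e ∈ F, G.connectedComponentMk e = κ := fun e he => (Prod.mk.inj (hx e he)).1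
    have hl : ∀ e ∈ F, G.dist (r κ) e = i := fun e he => by
      have := (Prod.mk.inj (hx e he)).2
      simp only [lv] at this
      rwa [hk e he] at this
    have under : ∀ t ∈ F, ∀ j, j < i → ∀ g, G.Reachable (r κ) g → G.dist (r κ) g = j →
        ¬ (t.1 ≤ g.1 ∧ g.2 ≤ t.2) := by
      intro t ht j
      induction j with
      | zero =>
        intro hi g hg hd hu
        have e := (hg.dist_eq_zero_iff).1 hd
        subst e
        have a := (hr κ t (hF ht) (hk t ht)).2
        have : t = r κ := Prod.ext (by omega) (by omega)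
        have b := hl t ht
        rw [this, SimpleGraph.dist_self] at b
        omega
      | succ j ih =>
        intro hi g hg hd hu
        obtain ⟨g', a, b, c⟩ := dist_pred hg hd
        obtain ⟨a1, a2, a3⟩ := (adj _ _).1 a
        have n : ¬ (cross g' t ∨ cross t g') := fun h => by
          have := dist_step b ((adj g' t).2 ⟨a1, hF ht, h⟩)
          have := hl t ht
          omega
        apply ih (by omega) g' b c
        unfold cross at a3 n
        omega
    rcases T.eq_empty_or_nonempty with rfl | ⟨t0, ht0⟩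
    · simp
    cases i with
    | zero =>
      have a := ((hr κ m (hF hm) (hk m hm)).1.dist_eq_zero_iff).1 (hl m hm)
      have b := ((hr κ t0 (hF (hT ht0)) (hk t0 (hT ht0))).1.dist_eq_zero_iff).1 (hl t0 (hT ht0))
      have := (hn t0 ht0).1
      rw [← a, ← b] at this
      exact (lt_irrefl _ this).elim
    | succ j =>
      obtain ⟨g, a, b, c⟩ := dist_pred (hr κ m (hF hm) (hk m hm)).1 (hl m hm)
      obtain ⟨a1, a2, a3⟩ := (adj _ _).1 a
      have gn : g ∉ T := fun h => by have := hl g (hT h); omega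
      have cr : ∀ t ∈ T, cross g t ∨ cross t g := by
        intro t ht
        have u := under t (hT ht) j (by omega) g b c
        have v := hn t ht
        unfold nest at v
        unfold cross at a3 ⊢
        omega
      have := tb (insert g T) (insert_subset a1 (hT.trans hF)) (by
        intro e he f hf hne
        rcases mem_insert.1 he with rfl | he'
        · rcases mem_insert.1 hf with rfl | hf'
          · exact (hne rfl).elim
          · exact cr f hf'
        · rcases mem_insert.1 hf with rfl | hf'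
          · exact (cr e he').symm
          · exact tw e he' f hf' hne)
      rw [card_insert_of_notMem gn] at this
      omega

theorem gy (K : ℕ) : ∃ (C : Type) (_ : Finite C), ∀ E, Ok E → TwB E K → SC E C := by
  induction K with
  | zero =>
    refine ⟨Unit, inferInstance, fun E _ tb => ⟨fun _ => (), fun e he => ?_⟩⟩
    have := tb {e} (singleton_subset_iff.2 he) (fun a ha b hb hne => by
      rw [mem_singleton] at ha hb; exact (hne (ha.trans hb.symm)).elim)
    simp at this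
  | succ K ih =>
    obtain ⟨C, _, IH⟩ := ih
    exact ⟨_, inferInstance, fun E ok tb => bfs (fun D a b c => level_col IH a b c) ok tb⟩

end Pool.Agent.H.MP_42bdc2_co
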