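import Pool.Agent.H.MP_42bdc2_co.B

set_option autoImplicit false

namespace Pool.Agent.H.MP_42bdc2_co

open Finset Classical

def Val (E : Finset Ed) (K : ℕ) (φ : Ed → Bool) : Prop :=
  (∀ T ⊆ E, Tw T → (∀ e ∈ T, φ e = true) → T.card ≤ K) ∧
  (∀ T ⊆ E, Rb T → (∀ e ∈ T, φ e = false) → T.card ≤ K)

def VE (E : Finset Ed) (K : ℕ) : Prop := ∃ φ, Val E K φ

def Loc (E : Finset Ed) (k g : ℕ) : Prop := ∀ W ⊆ E, W.card ≤ g → VE W k

lemma Val.mono {E F : Finset Ed} {K : ℕ} {φ : Ed → Bool} (h : Val E K φ) (hs : F ⊆ E) : Val F K φ :=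
  ⟨fun T hT => h.1 T (hT.trans hs), fun T hT => h.2 T (hT.trans hs)⟩

lemma Loc.mono {E F : Finset Ed} {k g : ℕ} (h : Loc E k g) (hs : F ⊆ E) : Loc F k g :=
  fun W hW => h W (hW.trans hs)

lemma VE.le {E : Finset Ed} {K K' : ℕ} (h : VE E K) (hk : K ≤ K') : VE E K' := by
  obtain ⟨φ, a, b⟩ := h
  exact ⟨φ, fun T h1 h2 h3 => (a T h1 h2 h3).trans hk, fun T h1 h2 h3 => (b T h1 h2 h3).trans hk⟩

lemma VE.union {E E1 E2 : Finset Ed} {K1 K2 : ℕ} (h1 : VE E1 K1) (h2 : VE E2 K2)
    (h : ∀ e ∈ E, e ∈ E1 ∨ e ∈ E2) : VE E (K1 + K2) := by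
  obtain ⟨φ1, a1, b1⟩ := h1
  obtain ⟨φ2, a2, b2⟩ := h2
  refine ⟨fun e => if e ∈ E1 then φ1 e else φ2 e, fun T hT tw hv => ?_, fun T hT tw hv => ?_⟩
  · have c := card_filter_add_card_filter_not (s := T) fun e => e ∈ E1
    have d := a1 (T.filter fun e => e ∈ E1) (fun e he => (mem_filter.1 he).2) (tw.mono (filter_subset _ _))
      fun e he => by have := hv e (mem_filter.1 he).1; simpa [(mem_filter.1 he).2] using this
    have d' := a2 (T.filter fun e => ¬ e ∈ E1)
      (fun e he => (h e (hT (mem_filter.1 he).1)).resolve_left (mem_filter.1 he).2) (tw.mono (filter_subset _ _))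
      fun e he => by have := hv e (mem_filter.1 he).1; simpa [(mem_filter.1 he).2] using this
    omega
  · have c := card_filter_add_card_filter_not (s := T) fun e => e ∈ E1
    have d := b1 (T.filter fun e => e ∈ E1) (fun e he => (mem_filter.1 he).2) (tw.mono (filter_subset _ _))
      fun e he => by have := hv e (mem_filter.1 he).1; simpa [(mem_filter.1 he).2] using this
    have d' := b2 (T.filter fun e => ¬ e ∈ E1)
      (fun e he => (h e (hT (mem_filter.1 he).1)).resolve_left (mem_filter.1 he).2) (tw.mono (filter_subset _ _))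
      fun e he => by have := hv e (mem_filter.1 he).1; simpa [(mem_filter.1 he).2] using this
    omega

def Sep (S : Finset Ed) : Prop := ∀ e ∈ S, ∀ f ∈ S, e.1 < f.2
def GP (Q : Finset Ed) : Prop := ∀ e ∈ Q, ∀ f ∈ Q, e ≠ f → e.1 ≠ f.1 ∧ e.2 ≠ f.2

lemma nest_col {E : Finset Ed} {K : ℕ} (h : RbB E K) :
    ∃ c : Ed → ℕ, (∀ e ∈ E, c e < K) ∧ ∀ e ∈ E, ∀ f ∈ E, nest e f → c e ≠ c f :=
  mirsky E nest K (fun _ _ h => lt_irrefl _ h.1)
    (fun _ _ _ _ _ _ a b => ⟨a.1.trans b.1, b.2.trans a.2⟩) h

lemma es {Q : Finset Ed} {k : ℕ} (sp : Sep Q) (gp : GP Q) (h1 : TwB Q k) (h2 : RbB Q k) :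
    Q.card ≤ k * k := by
  obtain ⟨c, c1, c2⟩ := nest_col h2
  have := card_le_mul_card_image_of_maps_to (s := Q) (t := range k) (f := c)
    (fun e he => mem_range.2 (c1 e he)) k fun x _ => h1 _ (filter_subset _ _) fun e he f hf hne => by
      obtain ⟨e1, e2⟩ := mem_filter.1 he
      obtain ⟨f1, f2⟩ := mem_filter.1 hf
      have a : ¬ nest e f := fun h => c2 e e1 f f1 h (e2.trans f2.symm)
      have b : ¬ nest f e := fun h => c2 f f1 e e1 h (f2.trans e2.symm)
      have g := gp e e1 f f1 hne
      have s1 := sp e e1 f f1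
      have s2 := sp f f1 e e1
      unfold nest at a b
      unfold cross
      omega
  rwa [card_range] at this

def gg (k : ℕ) : ℕ → ℕ
  | 0 => 0
  | d + 1 => (k + 1) * (gg k d + 1)

def Ext (S : Finset Ed) (k n : ℕ) (Q : Finset Ed) (φ : Ed → Bool) : Prop :=
  ∀ W ⊆ S, W.card ≤ n → ∃ ψ, Val (Q ∪ W) k ψ ∧ ∀ e ∈ Q, ψ e = φ e

lemma tree (S : Finset Ed) (k : ℕ) (d : ℕ) : ∀ Q φ, GP Q → Ext S k (gg k d) Q φ →
    VE S (k + 2 * (Q.card + d)) ∨ ∃ X ⊆ S, X.card + 1 ≤ 2 ^ d ∧ ∀ φ0 : Ed → Bool, ∃ Q' ⊆ X,
      Disjoint Q Q' ∧ Q'.card = d ∧ GP (Q ∪ Q') ∧ ∃ ψ, Val (Q ∪ Q') k ψ ∧ (∀ e ∈ Q, ψ e = φ e) ∧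
        ∀ e ∈ Q', ψ e ≠ φ0 e := by
  induction d with
  | zero =>
    intro Q φ gp ex
    obtain ⟨ψ, a, b⟩ := ex ∅ (empty_subset _) (by simp)
    exact Or.inr ⟨∅, empty_subset _, by simp, fun φ0 => ⟨∅, subset_rfl, by simp, rfl, by simpa using gp,
      ψ, a, b, by simp⟩⟩
  | succ d ih =>
    intro Q φ gp ex
    by_cases hs : ∃ p ∈ S, (∀ q ∈ Q, p.1 ≠ q.1 ∧ p.2 ≠ q.2) ∧
        ∀ b, Ext S k (gg k d) (insert p Q) (Function.update φ p b)
    · obtain ⟨p, hp, off, hE⟩ := hs
      have pn : p ∉ Q := fun h => (off p h).1 rfl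
      have gp' : GP (insert p Q) := by
        intro e he f hf hne
        rcases mem_insert.1 he with rfl | he'
        · rcases mem_insert.1 hf with rfl | hf'
          · exact (hne rfl).elim
          · exact off f hf'
        · rcases mem_insert.1 hf with rfl | hf'
          · exact ⟨(off e he').1.symm, (off e he').2.symm⟩
          · exact gp e he' f hf' hne
      by_cases hv : VE S (k + 2 * ((insert p Q).card + d))
      · rw [card_insert_of_notMem pn] at hv
        exact Or.inl (hv.le (by omega))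
      · have H := fun b => (ih _ _ gp' (hE b)).resolve_left hv
        choose X hX cX HX using H
        refine Or.inr ⟨insert p (X true ∪ X false), insert_subset hp (union_subset (hX _) (hX _)), ?_,
          fun φ0 => ?_⟩
        · have a := card_insert_le p (X true ∪ X false)
          have b := card_union_le (X true) (X false)
          have := cX true
          have := cX false
          omega
        · obtain ⟨Q', q1, q2, q3, q4, ψ, v1, v2, v3⟩ := HX (!φ0 p) φ0
          have pn' : p ∉ Q' := fun h => disjoint_left.1 q2 (mem_insert_self _ _) h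
          have eq : Q ∪ insert p Q' = insert p Q ∪ Q' := by rw [union_insert, insert_union]
          refine ⟨insert p Q', insert_subset_insert _ (q1.trans ?_), ?_, by rw [card_insert_of_notMem pn', q3],
            eq ▸ q4, ψ, eq ▸ v1, fun e he => ?_, fun e he => ?_⟩
          · cases (!φ0 p)
            · exact subset_union_right
            · exact subset_union_left
          · rw [disjoint_insert_right]
            exact ⟨pn, q2.mono_left (subset_insert _ _)⟩
          · rw [v2 e (mem_insert_of_mem he), Function.update_of_ne (fun h : e = p => pn (h ▸ he))]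
          · rcases mem_insert.1 he with rfl | he'
            · rw [v2 e (mem_insert_self _ _), Function.update_self]; simp
            · exact v3 e he'
    · left
      have H : ∀ p : Ed, ∃ b : Bool, ∃ W ⊆ S, W.card ≤ gg k d ∧ (p ∈ S → (∀ q ∈ Q, p.1 ≠ q.1 ∧ p.2 ≠ q.2) →
          ∀ ψ, Val (insert p Q ∪ W) k ψ → (∀ e ∈ Q, ψ e = φ e) → ψ p = b) := by
        intro p
        by_cases h : p ∈ S ∧ ∀ q ∈ Q, p.1 ≠ q.1 ∧ p.2 ≠ q.2
        · have : ∃ b, ¬ Ext S k (gg k d) (insert p Q) (Function.update φ p b) := by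
            by_contra hh
            exact hs ⟨p, h.1, h.2, fun b => by_contra fun h' => hh ⟨b, h'⟩⟩
          obtain ⟨b, hb⟩ := this
          unfold Ext at hb
          push Not at hb
          obtain ⟨W, w1, w2, w3⟩ := hb
          refine ⟨!b, W, w1, w2, fun _ _ ψ v a => ?_⟩
          obtain ⟨e, he, hne⟩ := w3 ψ v
          rcases mem_insert.1 he with rfl | he'
          · rw [Function.update_self] at hne
            revert hne
            cases ψ e <;> cases b <;> simp
          · have : e ≠ p := fun h' => (h.2 e he').1 (by rw [h'])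
            rw [Function.update_of_ne this] at hne
            exact (hne (a e he')).elim
        · exact ⟨true, ∅, empty_subset _, by simp, fun a b => (h ⟨a, b⟩).elim⟩
      choose χ W w1 w2 w3 using H
      have key : ∀ T ⊆ S, T.card = k + 1 → (∀ p ∈ T, ∀ q ∈ Q, p.1 ≠ q.1 ∧ p.2 ≠ q.2) →
          ∃ ψ, Val T k ψ ∧ ∀ p ∈ T, ψ p = χ p := by
        intro T hT cT off
        obtain ⟨ψ, v, a⟩ := ex (T.biUnion fun p => insert p (W p))
          (biUnion_subset.2 fun p hp => insert_subset (hT hp) (w1 p)) (by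
            refine (card_biUnion_le_card_mul _ _ (gg k d + 1) fun p _ => ?_).trans (by rw [cT]; rfl)
            exact (card_insert_le _ _).trans (Nat.add_le_add_right (w2 p) 1))
        refine ⟨ψ, v.mono fun p hp => mem_union_right _ (mem_biUnion.2 ⟨p, hp, mem_insert_self _ _⟩),
          fun p hp => w3 p (hT hp) (off p hp) ψ (v.mono fun e he => ?_) a⟩
        rcases mem_union.1 he with h | h
        · rcases mem_insert.1 h with rfl | h'
          · exact mem_union_right _ (mem_biUnion.2 ⟨e, hp, mem_insert_self _ _⟩)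
          · exact mem_union_left _ h'
        · exact mem_union_right _ (mem_biUnion.2 ⟨p, hp, mem_insert_of_mem h⟩)
      refine ⟨fun p => if ∀ q ∈ Q, p.1 ≠ q.1 ∧ p.2 ≠ q.2 then χ p else true, fun T hT tw hv => ?_,
        fun T hT tw hv => ?_⟩
      · have c := card_filter_add_card_filter_not (s := T) fun p => ∀ q ∈ Q, p.1 ≠ q.1 ∧ p.2 ≠ q.2
        have a : (T.filter fun p => ∀ q ∈ Q, p.1 ≠ q.1 ∧ p.2 ≠ q.2).card ≤ k := by
          by_contra hh
          obtain ⟨U, u1, u2⟩ := exists_subset_card_eq (not_le.1 hh)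
          have u3 : U ⊆ T := u1.trans (filter_subset _ _)
          obtain ⟨ψ, v, e⟩ := key U (u3.trans hT) u2 fun p hp => (mem_filter.1 (u1 hp)).2
          have := v.1 U subset_rfl (tw.mono u3) fun p hp => by
            have := hv p (u3 hp)
            beta_reduce at this
            rw [if_pos (mem_filter.1 (u1 hp)).2] at this
            rw [e p hp, this]
          omega
        have b1 : (T.filter fun p => p.1 ∈ Q.image Prod.fst).card ≤ Q.card := by
          refine le_trans (card_le_card_of_injOn Prod.fst (fun p hp => (mem_filter.1 hp).2)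
            fun p hp q hq h => ?_) card_image_le
          by_contra hne
          rcases tw p (mem_filter.1 hp).1 q (mem_filter.1 hq).1 hne with h' | h' <;> unfold cross at h' <;>
            omega
        have b2 : (T.filter fun p => p.2 ∈ Q.image Prod.snd).card ≤ Q.card := by
          refine le_trans (card_le_card_of_injOn Prod.snd (fun p hp => (mem_filter.1 hp).2)
            fun p hp q hq h => ?_) card_image_le
          by_contra hne
          rcases tw p (mem_filter.1 hp).1 q (mem_filter.1 hq).1 hne with h' | h' <;> unfold cross at h' <;>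
            omega
        have b : (T.filter fun p => ¬ ∀ q ∈ Q, p.1 ≠ q.1 ∧ p.2 ≠ q.2).card ≤ Q.card + Q.card := by
          refine le_trans (card_le_card fun p hp => ?_) ((card_union_le _ _).trans (Nat.add_le_add b1 b2))
          obtain ⟨p1, p2⟩ := mem_filter.1 hp
          push Not at p2
          obtain ⟨q, hq, h⟩ := p2
          by_cases h' : p.1 = q.1
          · exact mem_union_left _ (mem_filter.2 ⟨p1, mem_image.2 ⟨q, hq, h'.symm⟩⟩)
          · exact mem_union_right _ (mem_filter.2 ⟨p1, mem_image.2 ⟨q, hq, (h h').symm⟩⟩)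
        omega
      · have off : ∀ p ∈ T, ∀ q ∈ Q, p.1 ≠ q.1 ∧ p.2 ≠ q.2 := fun p hp => by
          by_contra hh
          have := hv p hp
          beta_reduce at this
          rw [if_neg hh] at this
          exact Bool.noConfusion this
        have a : T.card ≤ k := by
          by_contra hh
          obtain ⟨U, u1, u2⟩ := exists_subset_card_eq (not_le.1 hh)
          obtain ⟨ψ, v, e⟩ := key U (u1.trans hT) u2 fun p hp => off p (u1 hp)
          have := v.2 U subset_rfl (tw.mono u1) fun p hp => by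
            have := hv p (u1 hp)
            beta_reduce at this
            rw [if_pos (off p (u1 hp))] at this
            rw [e p hp, this]
          omega
        omega

lemma sep_val {S : Finset Ed} {k g : ℕ} (sp : Sep S) (lc : Loc S k g)
    (h1 : gg k (2 * (k * k) + 1) ≤ g) (h2 : 2 ^ (2 * (k * k) + 1) ≤ g) :
    VE S (k + 2 * (2 * (k * k) + 1)) := by
  rcases tree S k (2 * (k * k) + 1) ∅ (fun _ => true) (fun e he => by simp at he)
    (fun W hW cW => by
      obtain ⟨ψ, v⟩ := lc W hW (cW.trans h1)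
      exact ⟨ψ, by simpa using v, by simp⟩) with h | ⟨X, hX, cX, H⟩
  · simpa using h
  · obtain ⟨φ0, v0⟩ := lc X hX (by omega)
    obtain ⟨Q, q1, -, q3, q4, ψ, v, -, hne⟩ := H φ0
    rw [empty_union] at q4 v
    have c := card_filter_add_card_filter_not (s := Q) fun e => ψ e = true
    have sq : ∀ F ⊆ Q, Sep F := fun F hF e he f hf => sp e (hX (q1 (hF he))) f (hX (q1 (hF hf)))
    have gq : ∀ F ⊆ Q, GP F := fun F hF e he f hf => q4 e (hF he) f (hF hf)
    have a := es (k := k) (sq _ (filter_subset (fun e => ψ e = true) Q)) (gq _ (filter_subset _ _))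
      (fun T hT tw => v.1 T (hT.trans (filter_subset _ _)) tw fun e he => (mem_filter.1 (hT he)).2)
      (fun T hT tw => v0.2 T (hT.trans ((filter_subset _ _).trans q1)) tw fun e he => by
        have a := (mem_filter.1 (hT he)).2
        have b := hne e (mem_filter.1 (hT he)).1
        rw [a] at b
        revert b
        cases φ0 e <;> simp)
    have b := es (k := k) (sq _ (filter_subset (fun e => ¬ ψ e = true) Q)) (gq _ (filter_subset _ _))
      (fun T hT tw => v0.1 T (hT.trans ((filter_subset _ _).trans q1)) tw fun e he => by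
        have a := (mem_filter.1 (hT he)).2
        have b := hne e (mem_filter.1 (hT he)).1
        revert a b
        cases φ0 e <;> cases ψ e <;> simp)
      (fun T hT tw => v.2 T (hT.trans (filter_subset _ _)) tw fun e he => by
        simpa using (mem_filter.1 (hT he)).2)
    omega

end Pool.Agent.H.MP_42bdc2_co
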