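import Pool.Agent.H.MP_42bdc2_co.C

set_option autoImplicit false

namespace Pool.Agent.H.MP_42bdc2_co

open Finset Classical

lemma VE.ofTw {E : Finset Ed} {K : ℕ} (h : TwB E K) : VE E K :=
  ⟨fun _ => true, fun T a b _ => h T a b, fun T _ _ c => by
    rw [eq_empty_of_forall_notMem (s := T) fun e he => Bool.noConfusion (c e he)]; simp⟩

def KK (k : ℕ) : ℕ := k + 2 * (2 * (k * k) + 1)

lemma level_val {D : Finset Ed} {k g : ℕ} (ok : Ok D) (cb : CovB D k) (lc : Loc D k g)
    (h1 : gg k (2 * (k * k) + 1) ≤ g) (h2 : 2 ^ (2 * (k * k) + 1) ≤ g) :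
    VE D (1 + KK k + KK k + 3 * k) := by
  obtain ⟨ι, hm, i2, i3⟩ := index D ok
  have s1 : VE (D.filter fun e => ι e.2 = ι e.1) 1 := VE.ofTw fun T hT tw => card_le_one.2 fun e he f hf => by
    by_contra hne
    obtain ⟨e1, e2⟩ := mem_filter.1 (hT he)
    obtain ⟨f1, f2⟩ := mem_filter.1 (hT hf)
    rcases tw e he f hf hne with h | h
    · exact short_no hm i3 e1 e2 f2 h.2.1 h.2.2
    · exact short_no hm i3 f1 f2 e2 h.2.1 h.2.2
  have sa : ∀ a, VE (D.filter fun e => ι e.1 = a ∧ ι e.2 = a + 1) (KK k) := fun a =>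
    sep_val (fun e he f hf => by
      have x := (mem_filter.1 he).2.1
      have y := (mem_filter.1 hf).2.2
      by_contra hh
      have := hm (not_lt.1 hh)
      omega) (lc.mono (filter_subset _ _)) h1 h2
  choose φ hφ using sa
  have s2 : ∀ p, VE (D.filter fun e => ι e.2 = ι e.1 + 1 ∧ ι e.1 % 2 = p) (KK k) := by
    intro p
    have sub : ∀ T ⊆ D.filter (fun e => ι e.2 = ι e.1 + 1 ∧ ι e.1 % 2 = p), (∀ e ∈ T, ∀ f ∈ T, e.1 < f.2) →
        ∀ e ∈ T, ∀ f ∈ T, f ∈ D ∧ ι f.1 = ι e.1 ∧ ι f.2 = ι e.1 + 1 := by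
      intro T hT h e he f hf
      obtain ⟨e1, e2, e3⟩ := mem_filter.1 (hT he)
      obtain ⟨f1, f2, f3⟩ := mem_filter.1 (hT hf)
      have a := hm (h e he f hf).le
      have b := hm (h f hf e he).le
      exact ⟨f1, by omega, by omega⟩
    refine ⟨fun e => φ (ι e.1) e, fun T hT tw hv => ?_, fun T hT tw hv => ?_⟩
    · rcases T.eq_empty_or_nonempty with rfl | ⟨e, he⟩
      · simp
      have s := sub T hT (fun a ha b hb => tw.lt (ok.mono (hT.trans (filter_subset _ _))) ha hb) e he
      exact (hφ (ι e.1)).1 T (fun f hf => mem_filter.2 (s f hf)) tw fun f hf => by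
        rw [← (s f hf).2.1]; exact hv f hf
    · rcases T.eq_empty_or_nonempty with rfl | ⟨e, he⟩
      · simp
      have s := sub T hT (fun a ha b hb => tw.lt (ok.mono (hT.trans (filter_subset _ _))) ha hb) e he
      exact (hφ (ι e.1)).2 T (fun f hf => mem_filter.2 (s f hf)) tw fun f hf => by
        rw [← (s f hf).2.1]; exact hv f hf
  have s3 : VE (D.filter fun e => ι e.1 + 2 ≤ ι e.2) (3 * k) := VE.ofTw fun T hT tw => by
    rcases T.eq_empty_or_nonempty with rfl | hne
    · simp
    obtain ⟨x, hx, hmax⟩ := exists_max_image T Prod.fst hne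
    have hD : T ⊆ D := hT.trans (filter_subset _ _)
    have a1 : (T.filter fun e => ι e.1 + 2 ≤ ι x.1).card ≤ k :=
      cov_bound cb i2 ((filter_subset _ _).trans hD) (tw.mono (filter_subset _ _)) fun e he f hf => by
        have := (mem_filter.1 he).2
        have := hm (tw.lt (ok.mono hD) hx (mem_filter.1 hf).1).le
        omega
    have a2 : ∀ a, (T.filter fun e => ι e.1 = a).card ≤ k := fun a =>
      cov_bound cb i2 ((filter_subset _ _).trans hD) (tw.mono (filter_subset _ _)) fun e he f hf => by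
        have := (mem_filter.1 he).2
        have := (mem_filter.1 hf).2
        have := (mem_filter.1 (hT (mem_filter.1 hf).1)).2
        omega
    have : T ⊆ (T.filter fun e => ι e.1 + 2 ≤ ι x.1) ∪ (T.filter fun e => ι e.1 = ι x.1 - 1) ∪
        (T.filter fun e => ι e.1 = ι x.1) := by
      intro e he
      have := hm (hmax e he)
      simp only [mem_union, mem_filter, he, true_and]
      omega
    have b := (card_le_card this).trans ((card_union_le _ _).trans
      (Nat.add_le_add_right (card_union_le _ _) _))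
    have := a2 (ι x.1 - 1)
    have := a2 (ι x.1)
    omega
  refine VE.union (VE.union (VE.union s1 (s2 0)
    (E := D.filter fun e => ι e.2 = ι e.1 ∨ (ι e.2 = ι e.1 + 1 ∧ ι e.1 % 2 = 0)) fun e he => ?_) (s2 1)
    (E := D.filter fun e => ι e.2 ≤ ι e.1 + 1) fun e he => ?_) s3 fun e he => ?_
  · obtain ⟨a, b⟩ := mem_filter.1 he
    exact b.imp (fun h => mem_filter.2 ⟨a, h⟩) fun h => mem_filter.2 ⟨a, h⟩
  · obtain ⟨a, b⟩ := mem_filter.1 he
    have := hm (ok e a).le
    simp only [mem_filter, a, true_and]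
    omega
  · simp only [mem_filter, he, true_and]
    omega

def Rk (E : Finset Ed) (k : ℕ) : ℕ → Ed → Prop
  | 0, _ => True
  | r + 1, e => ∃ T ⊆ E, Tw T ∧ T.card = k + 1 ∧ ∀ t ∈ T, nest t e ∧ Rk E k r t

lemma witness (E : Finset Ed) (k r : ℕ) : ∀ e, Rk E k r e → ∃ W ⊆ E, W.card ≤ gg k r ∧
    ∀ φ, Val W k φ → ∃ U ⊆ W, Rb U ∧ U.card = r ∧ ∀ u ∈ U, φ u = false ∧ nest u e := by
  induction r with
  | zero => exact fun e _ => ⟨∅, empty_subset _, by simp, fun φ _ => ⟨∅, subset_rfl, by simp [Rb], rfl, by simp⟩⟩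
  | succ r ih =>
    rintro e ⟨T, hT, tw, cT, h⟩
    have H : ∀ t, ∃ W ⊆ E, W.card ≤ gg k r ∧ (t ∈ T →
        ∀ φ, Val W k φ → ∃ U ⊆ W, Rb U ∧ U.card = r ∧ ∀ u ∈ U, φ u = false ∧ nest u t) := by
      intro t
      by_cases ht : t ∈ T
      · obtain ⟨W, a, b, c⟩ := ih t (h t ht).2
        exact ⟨W, a, b, fun _ => c⟩
      · exact ⟨∅, empty_subset _, by simp, fun h => (ht h).elim⟩
    choose W w1 w2 w3 using H
    refine ⟨T.biUnion fun t => insert t (W t), biUnion_subset.2 fun t ht => insert_subset (hT ht) (w1 t), ?_,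
      fun φ v => ?_⟩
    · refine (card_biUnion_le_card_mul _ _ (gg k r + 1) fun p _ => ?_).trans (by rw [cT]; rfl)
      exact (card_insert_le _ _).trans (Nat.add_le_add_right (w2 p) 1)
    · have : ∃ t ∈ T, φ t = false := by
        by_contra hh
        have := v.1 T (fun t ht => mem_biUnion.2 ⟨t, ht, mem_insert_self _ _⟩) tw fun t ht => by
          by_contra h'
          exact hh ⟨t, ht, by simpa using h'⟩
        omega
      obtain ⟨t, ht, ft⟩ := this
      obtain ⟨U, u1, u2, u3, u4⟩ := w3 t ht φ (v.mono fun x hx => mem_biUnion.2 ⟨t, ht, mem_insert_of_mem hx⟩)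
      have tn : t ∉ U := fun hh => lt_irrefl _ (u4 t hh).2.1
      refine ⟨insert t U, fun x hx => mem_biUnion.2 ⟨t, ht, insert_subset_insert _ u1 hx⟩, ?_,
        by rw [card_insert_of_notMem tn, u3], fun u hu => ?_⟩
      · intro a ha b hb hne
        rcases mem_insert.1 ha with rfl | ha'
        · rcases mem_insert.1 hb with rfl | hb'
          · exact (hne rfl).elim
          · exact Or.inr (u4 b hb').2
        · rcases mem_insert.1 hb with rfl | hb'
          · exact Or.inl (u4 a ha').2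
          · exact u2 a ha' b hb' hne
      · rcases mem_insert.1 hu with rfl | hu'
        · exact ⟨ft, (h u ht).1⟩
        · exact ⟨(u4 u hu').1, (u4 u hu').2.1.trans (h t ht).1.1, (h t ht).1.2.trans (u4 u hu').2.2⟩

theorem thmA (k : ℕ) : ∃ g K, ∀ E, Ok E → Loc E k g → VE E K := by
  refine ⟨gg k (2 * (k * k) + 1) + 2 ^ (2 * (k * k) + 1) + gg k (k + 1),
    (k + 1) * (1 + KK k + KK k + 3 * k), fun E ok lc => ?_⟩
  have H : ∀ r, VE (E.filter fun e => ¬ Rk E k r e) (r * (1 + KK k + KK k + 3 * k)) := by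
    intro r
    induction r with
    | zero =>
      refine VE.ofTw fun T hT _ => ?_
      rw [eq_empty_of_forall_notMem (s := T) fun e he => (mem_filter.1 (hT he)).2 trivial]; simp
    | succ r ih =>
      have L : VE (E.filter fun e => Rk E k r e ∧ ¬ Rk E k (r + 1) e) (1 + KK k + KK k + 3 * k) := by
        refine level_val (ok.mono (filter_subset _ _)) (fun T hT tw m hm hn => ?_)
          (lc.mono (filter_subset _ _)) ((Nat.le_add_right _ _).trans (Nat.le_add_right _ _))
          ((Nat.le_add_left _ _).trans (Nat.le_add_right _ _))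
        by_contra hh
        obtain ⟨U, u1, u2⟩ := exists_subset_card_eq (not_le.1 hh)
        exact (mem_filter.1 hm).2.2 ⟨U, u1.trans (hT.trans (filter_subset _ _)), tw.mono u1, u2,
          fun t ht => ⟨hn t (u1 ht), (mem_filter.1 (hT (u1 ht))).2.1⟩⟩
      rw [add_mul, one_mul]
      refine VE.union ih L fun e he => ?_
      obtain ⟨a, b⟩ := mem_filter.1 he
      by_cases h : Rk E k r e
      · exact Or.inr (mem_filter.2 ⟨a, h, b⟩)
      · exact Or.inl (mem_filter.2 ⟨a, h⟩)
  have no : ∀ e ∈ E, ¬ Rk E k (k + 1) e := by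
    intro e _ h
    obtain ⟨W, w1, w2, w3⟩ := witness E k (k + 1) e h
    obtain ⟨φ, v⟩ := lc W w1 (w2.trans (Nat.le_add_left _ _))
    obtain ⟨U, u1, u2, u3, u4⟩ := w3 φ v
    have := v.2 U u1 u2 fun u hu => (u4 u hu).1
    omega
  have := H (k + 1)
  rwa [filter_true_of_mem no] at this

def PG (E : Finset Ed) (n : ℕ) : Prop := ∃ c : Ed → ℕ, (∀ e ∈ E, c e < n) ∧ ∀ i,
  (∀ e ∈ E, ∀ f ∈ E, c e = i → c f = i → ¬ cross e f) ∨ (∀ e ∈ E, ∀ f ∈ E, c e = i → c f = i → ¬ nest e f)

lemma PG.ve {E : Finset Ed} {n : ℕ} (h : PG E n) : VE E n := by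
  obtain ⟨c, c1, c2⟩ := h
  refine ⟨fun e => decide (∀ a ∈ E, ∀ f ∈ E, c a = c e → c f = c e → ¬ cross a f), fun T hT tw hv => ?_,
    fun T hT tw hv => ?_⟩
  · rw [← card_range n]
    refine card_le_card_of_injOn c (fun e he => mem_coe.2 (mem_range.2 (c1 e (hT he)))) fun e he f hf h => ?_
    by_contra hne
    have := of_decide_eq_true (hv e he)
    rcases tw e he f hf hne with h' | h'
    · exact this e (hT he) f (hT hf) rfl h.symm h'
    · exact this f (hT hf) e (hT he) h.symm rfl h'
  · rw [← card_range n]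
    refine card_le_card_of_injOn c (fun e he => mem_coe.2 (mem_range.2 (c1 e (hT he)))) fun e he f hf h => ?_
    by_contra hne
    have := (c2 (c e)).resolve_left (of_decide_eq_false (hv e he))
    rcases tw e he f hf hne with h' | h'
    · exact this e (hT he) f (hT hf) rfl h.symm h'
    · exact this f (hT hf) e (hT he) h.symm rfl h'

theorem main (k : ℕ) : ∃ g n, ∀ E, Ok E → (∀ W ⊆ E, W.card ≤ g → PG W k) → PG E n := by
  obtain ⟨g, K, H⟩ := thmA k
  obtain ⟨C, _, G⟩ := gy K
  obtain ⟨N, ⟨q⟩⟩ := Finite.exists_equiv_fin C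
  refine ⟨g, N + K, fun E ok h => ?_⟩
  obtain ⟨φ, v1, v2⟩ := H E ok fun W a b => (h W a b).ve
  obtain ⟨c1, h1⟩ := G (E.filter fun e => φ e = true) (ok.mono (filter_subset _ _))
    fun T hT tw => v1 T (hT.trans (filter_subset _ _)) tw fun e he => (mem_filter.1 (hT he)).2
  obtain ⟨c2, h2, h3⟩ := nest_col (E := E.filter fun e => ¬ φ e = true) (K := K)
    fun T hT tw => v2 T (hT.trans (filter_subset _ _)) tw fun e he => by simpa using (mem_filter.1 (hT he)).2
  refine ⟨fun e => if φ e = true then (q (c1 e) : ℕ) else N + c2 e, fun e he => ?_, fun i => ?_⟩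
  · by_cases a : φ e = true
    · simp only [a, if_true]
      have := (q (c1 e)).2
      omega
    · simp only [a]
      have := h2 e (mem_filter.2 ⟨he, a⟩)
      simpa using this
  · by_cases hi : i < N
    · left
      intro e he f hf a b hx
      beta_reduce at a b
      by_cases x : φ e = true
      · by_cases y : φ f = true
        · rw [if_pos x] at a
          rw [if_pos y] at b
          exact h1 e (mem_filter.2 ⟨he, x⟩) f (mem_filter.2 ⟨hf, y⟩) hx (q.injective (Fin.ext (a.trans b.symm)))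
        · rw [if_neg y] at b; omega
      · rw [if_neg x] at a; omega
    · right
      intro e he f hf a b hx
      beta_reduce at a b
      by_cases x : φ e = true
      · rw [if_pos x] at a
        have := (q (c1 e)).2
        omega
      · by_cases y : φ f = true
        · rw [if_pos y] at b
          have := (q (c1 f)).2
          omega
        · rw [if_neg x] at a
          rw [if_neg y] at b
          exact h3 e (mem_filter.2 ⟨he, x⟩) f (mem_filter.2 ⟨hf, y⟩) hx (by omega)

end Pool.Agent.H.MP_42bdc2_co
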